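import Pool.Agent.Lib.MP_992c01_co.Multi

set_option autoImplicit false

/-!
# Fractional covers by noncrossing monochromatic paths

Every `k`-edge-coloured complete geometric graph on `n` vertices has a probability distribution on
its noncrossing monochromatic paths such that each vertex is covered with probability at least
`1 / (10 ^ 10 * k ^ 8)`. In other words the linear programming relaxation of Q1 is true.

The theorem is stated with a list of `T` paths (with repetitions allowed), for each
`T ≥ 10 ^ 10 * k ^ 8 * log n`. The proof is in `Lib/MP_992c01_co/*.lean`: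

* `Geo`, `Walk`, `WProc`, `WCore`: the core lemma. `A` and `B` are point sets on the two sides of
  the line `x = c`, with weights `w`, `E ⊆ A × B`. A point `o` moves upwards on the line `x = c`.
  At each point `v` there are `w v` pedestrians; when `o` passes the edge `a b` of `E`, pedestrians
  are exchanged between `a` and `b`, except those who have seen the new point pass from below to
  above their line. Their paths are noncrossing. The exchange fails only by pairs of points of one
  side whose line crosses the other side.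
* `Quarter`, `WQuarter`: any weighted point set contains four sets of weight at least one sixth
  (up to small errors) such that no line crosses all four; by iteration `4 ^ d` sets of weight
  about `6 ^ (- d)` such that each line crosses at most `3 ^ d` of them.
* `WLin`: averaging over the pairs of these sets and the colours gives a path of large weight, for
  every weight function.
* `Multi`: the multiplicative weights method.
-/

namespace Pool.Agent.Results.MP_992c01_co.FractionalCover

open Pool.Agent.Lib.MP_992c01_co

/-- `v 0, ..., v (len - 1)` is a noncrossing monochromatic path on vertices of `P`. -/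
def IsPath {k : ℕ} (P : Finset (ℝ × ℝ)) (col : ℝ × ℝ → ℝ × ℝ → Fin k) (len : ℕ)
    (v : ℕ → ℝ × ℝ) : Prop :=
  1 ≤ len ∧
  (∀ s : ℕ, s < len → v s ∈ P) ∧
  (∀ s t : ℕ, s < len → t < len → v s = v t → s = t) ∧
  (∃ c : Fin k, ∀ s : ℕ, s + 1 < len → col (v s) (v (s + 1)) = c) ∧
  (∀ s t : ℕ, s + 1 < len → t + 1 < len → s + 1 < t →
    Disjoint (segment ℝ (v s) (v (s + 1))) (segment ℝ (v t) (v (t + 1))))

/-- Let `P` be a nonempty finite set of points of the plane, no three of them collinear, whose
edges are coloured with `k` colours. For each natural number `T ≥ 10 ^ 10 * k ^ 8 * log |P|` there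
are `T` noncrossing monochromatic paths (repetitions allowed) such that each point of `P` lies on
at least `T / (10 ^ 10 * k ^ 8)` of them. -/
theorem result (k : ℕ) (hk : 1 ≤ k) (P : Finset (ℝ × ℝ)) (hP : P.Nonempty)
    (gp : ∀ a ∈ P, ∀ b ∈ P, ∀ c ∈ P, a ≠ b → a ≠ c → b ≠ c →
      (b.1 - a.1) * (c.2 - a.2) - (b.2 - a.2) * (c.1 - a.1) ≠ 0)
    (col : ℝ × ℝ → ℝ × ℝ → Fin k) (hcol : ∀ x y, col x y = col y x)
    (T : ℕ) (hT : 10 ^ 10 * (k : ℝ) ^ 8 * Real.log P.card ≤ T) :
    ∃ (len : Fin T → ℕ) (v : Fin T → ℕ → ℝ × ℝ),
      (∀ j : Fin T, IsPath P col (len j) (v j)) ∧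
      ∀ p ∈ P, T ≤ 10 ^ 10 * k ^ 8 * Set.ncard {j : Fin T | ∃ s, s < len j ∧ v j s = p} := by
  classical
  have hk8 : 1 ≤ k ^ 8 := Nat.one_le_pow _ _ hk
  have hlog : 0 ≤ Real.log P.card :=
    Real.log_nonneg (by exact_mod_cast Finset.card_pos.mpr hP)
  have hkR : (1:ℝ) ≤ (k:ℝ) ^ 8 := by exact_mod_cast hk8
  obtain ⟨π, h1, h2⟩ := multi (K := 805306368 * k ^ 8) (by omega) P hP col
    (fun w => wlin w k hk P gp hP col hcol) T (by
      refine le_trans ?_ hT
      push_cast
      have : 0 ≤ (k:ℝ) ^ 8 * Real.log P.card := mul_nonneg (by linarith) hlog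
      nlinarith)
  refine ⟨fun j => (π j).1, fun j => (π j).2, fun j => h1 j j.2, fun p hp => ?_⟩
  refine (h2 p hp).trans ?_
  have e : cnt π T p = Set.ncard {j : Fin T | ∃ s, s < (π j).1 ∧ (π j).2 s = p} := by
    rw [Set.ncard_eq_toFinset_card', Set.toFinset_setOf]
    unfold cnt
    rw [← Finset.card_map Fin.valEmbedding]
    congr 1
    ext j
    simp only [Finset.mem_filter, Finset.mem_range, Finset.mem_map, Finset.mem_univ, true_and,
      mem_verts, Fin.valEmbedding_apply]
    constructor
    · rintro ⟨hj, s, hs, h⟩
      exact ⟨⟨j, hj⟩, ⟨s, hs, h⟩, rfl⟩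
    · rintro ⟨i, ⟨s, hs, h⟩, rfl⟩
      exact ⟨i.2, s, hs, h⟩
  rw [e]
  apply Nat.mul_le_mul_right
  omega

end Pool.Agent.Results.MP_992c01_co.FractionalCover
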