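import Pool.Agent.Lib.MP_992c01_co.Cover

set_option autoImplicit false

/-!
# Partition into `O(log n)` noncrossing monochromatic paths

Every `k`-edge-coloured complete geometric graph on `n` vertices has a noncrossing monochromatic
path on at least `n / (6144 * k ^ 8)` vertices, hence (by iteration) its vertex set can be
partitioned into at most `1 + 6144 * k ^ 8 * log n` noncrossing monochromatic paths.

The proof is in `Lib/MP_992c01_co/*.lean`:

* `Geo`, `Proc`, `Core`: the core lemma. `A` and `B` are point sets on the two sides of the line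
  `x = c`, `E ⊆ A × B`. A point `o` moves upwards on the line `x = c`, at each point of `A ∪ B`
  stands a pedestrian; when `o` passes the edge `a b` of `E`, the pedestrians at `a` and `b`
  change places, unless one of them has seen the new point pass from below to above his line.
  The paths of the pedestrians are noncrossing. The number of failures is at most the number of
  pairs of points of one side whose line crosses the other side.
* `Quarter`, `Part`: `6 s` points contain four sets of `s` points such that no line crosses all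
  four; by iteration `6 ^ d * s` points contain `4 ^ d` sets of `s` points such that each line
  crosses at most `3 ^ d` of them.
* `Lin`: averaging over the pairs of these sets, the linear path; `Cover`: the iteration.
-/

namespace Pool.Agent.Results.MP_992c01_co.LogPartition

open Pool.Agent.Lib.MP_992c01_co

/-- `v 0, ..., v (len - 1)` is a noncrossing monochromatic path on vertices of `P`. -/
def IsPath {k : ℕ} (P : Finset (ℝ × ℝ)) (col : ℝ × ℝ → ℝ × ℝ → Fin k) (len : ℕ)
    (v : ℕ → ℝ × ℝ) : Prop :=
  1 ≤ len ∧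
  (∀ s : ℕ, s < len → v s ∈ P) ∧
  (∀ s t : ℕ, s < len → t < len → v s = v t → s = t) ∧
  (∃ c : Fin k, ∀ s : ℕ, s + 1 < len → col (v s) (v (s + 1)) = c) ∧
  (∀ s t : ℕ, s + 1 < len → t + 1 < len → s + 1 < t →
    Disjoint (segment ℝ (v s) (v (s + 1))) (segment ℝ (v t) (v (t + 1))))

/-- Let `P` be a nonempty finite set of points of the plane, no three of them collinear, whose
edges are coloured with `k` colours. The set `P` is the disjoint union of the vertex sets of `m`
noncrossing monochromatic paths, where `m ≤ 1 + 6144 * k ^ 8 * log |P|`, and each path has at least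
`r / (6144 * k ^ 8)` vertices, where `r` is the number of the vertices which are not on the
previous paths. In particular the first path has at least `|P| / (6144 * k ^ 8)` vertices. -/
theorem result (k : ℕ) (hk : 1 ≤ k) (P : Finset (ℝ × ℝ)) (hP : P.Nonempty)
    (gp : ∀ a ∈ P, ∀ b ∈ P, ∀ c ∈ P, a ≠ b → a ≠ c → b ≠ c →
      (b.1 - a.1) * (c.2 - a.2) - (b.2 - a.2) * (c.1 - a.1) ≠ 0)
    (col : ℝ × ℝ → ℝ × ℝ → Fin k) (hcol : ∀ x y, col x y = col y x) :
    ∃ (m : ℕ) (len : Fin m → ℕ) (v : Fin m → ℕ → ℝ × ℝ),
      (m : ℝ) ≤ 1 + 6144 * (k : ℝ) ^ 8 * Real.log P.card ∧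
      (∀ j : Fin m, IsPath P col (len j) (v j)) ∧
      (∀ p ∈ P, ∃ j : Fin m, ∃ s, s < len j ∧ v j s = p) ∧
      (∀ i j : Fin m, i ≠ j → ∀ s t, s < len i → t < len j → v i s ≠ v j t) ∧
      ∀ j : Fin m, P.card ≤ ∑ i ∈ Finset.univ.filter (fun i => i < j), len i +
        6144 * k ^ 8 * len j := by
  classical
  have hk8 : 1 ≤ k ^ 8 := Nat.one_le_pow _ _ hk
  obtain ⟨m, π, h1, h2, h3, h4, h5⟩ := cover_seq (K := 6144 * k ^ 8) (by omega) col
    (fun Q gQ hQ => lin k hk Q gQ hQ col hcol) P.card P rfl gp hP
  refine ⟨m, fun j => (π j).1, fun j => (π j).2, ?_, fun j => h2 j j.2, ?_, ?_, ?_⟩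
  · push_cast at h1
    exact h1
  · intro p hp
    obtain ⟨j, hj, h⟩ := h3 p hp
    obtain ⟨s, hs, hs'⟩ := mem_verts.mp h
    exact ⟨⟨j, hj⟩, s, hs, hs'⟩
  · intro i j hij s t hs ht he
    have hne : (i : ℕ) ≠ j := fun h => hij (Fin.ext h)
    rcases lt_or_gt_of_ne hne with h | h
    · exact (Finset.disjoint_left.mp (h4 i j h j.2)) (mem_verts.mpr ⟨s, hs, rfl⟩)
        (mem_verts.mpr ⟨t, ht, he.symm⟩)
    · exact (Finset.disjoint_left.mp (h4 j i h i.2)) (mem_verts.mpr ⟨t, ht, rfl⟩)
        (mem_verts.mpr ⟨s, hs, he⟩)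
  · intro j
    refine (h5 j j.2).trans (le_of_eq ?_)
    congr 1
    symm
    refine Finset.sum_bij (fun i _ => (i : ℕ)) ?_ ?_ ?_ ?_
    · intro i hi
      rw [Finset.mem_filter] at hi
      exact Finset.mem_range.mpr hi.2
    · intro a _ b _ h; exact Fin.ext h
    · intro i hi
      have hi' := Finset.mem_range.mp hi
      exact ⟨⟨i, by omega⟩, Finset.mem_filter.mpr ⟨Finset.mem_univ _, hi'⟩, rfl⟩
    · intro i _; rfl

end Pool.Agent.Results.MP_992c01_co.LogPartition
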